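import Pool.Agent.Helper81.RP.Defs

/-!
# Programs of random access machines with few jumps in the memory: definitions

The memory is regarded as `K` tapes: the register `z` is the cell number `⌊z / K⌋` of the tape number
`z mod K`.
-/

set_option autoImplicit false

namespace Pool.Agent.Helper81.JR

open Pool.Agent.Helper81.RP (Ins AcceptsAt conf)

/-- The register which is accessed by the next instruction, if it is `load` or `store`. -/
def acc (P : List Ins) (c : ℕ × (ℕ → ℕ)) : Option ℕ :=
  match P[c.1]? with
  | some (.load _ j) => some (c.2 j)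
  | some (.store i _) => some (c.2 i)
  | _ => none

/-- The cell of the tape number `i` which was accessed last before the step number `k` (the cell `0`,
if there was no such access). -/
def last (P : List Ins) (w y : List Bool) (K i : ℕ) : ℕ → ℕ
  | 0 => 0
  | k + 1 => match acc P (conf P w y k) with
    | some z => if z % K = i then z / K else last P w y K i k
    | none => last P w y K i k

/-- In the step number `k` the program jumps: it loads or stores a register `z` whose cell is not the
same as the last cell which was accessed on this tape, nor a neighbour of it. -/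
def Jump (P : List Ins) (w y : List Bool) (K k : ℕ) : Prop :=
  ∃ z, acc P (conf P w y k) = some z ∧
    (z / K + 1 < last P w y K (z % K) k ∨ last P w y K (z % K) k + 1 < z / K)

/-- The number of jumps in the first `t` steps. -/
noncomputable def jumps (P : List Ins) (w y : List Bool) (K t : ℕ) : ℕ :=
  {k : ℕ | k < t ∧ Jump P w y K k}.ncard

/-- The program `P` accepts the word `w` of length `n`, with the second word `y`, after `t` steps with
`J` jumps, all numbers in the registers being less than `2 ^ s` up to this time, and the numbers of the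
registers which are loaded or stored less than `2 ^ b`, where `⌊log₂ n⌋ + 1 ≤ s` and, for
`l = b + ⌊log₂ n⌋ + 1`, `t (J + n + 1) s l ^ 4 ≤ C (n + 1) ^ 3` and `s l ^ 4 ≤ C (n + 1)`. For example,
`P` accepts `w` with numbers of `O(log n)` bits, and `t (J + n) ≤ C n ^ 3 / log ^ 5 n`. -/
def Within (P : List Ins) (K : ℕ) (C : ℝ) (w y : List Bool) : Prop :=
  ∃ t s b : ℕ, Nat.log 2 w.length + 1 ≤ s ∧ AcceptsAt P w y t ∧
    (∀ k ≤ t, ∀ i, (conf P w y k).2 i < 2 ^ s) ∧
    (∀ k ≤ t, ∀ z, acc P (conf P w y k) = some z → z < 2 ^ b) ∧
    (t : ℝ) * ((jumps P w y K t : ℝ) + w.length + 1) * s *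
      ((b : ℝ) + ((Nat.log 2 w.length : ℝ) + 1)) ^ 4 ≤ C * ((w.length : ℝ) + 1) ^ 3 ∧
    (s : ℝ) * ((b : ℝ) + ((Nat.log 2 w.length : ℝ) + 1)) ^ 4 ≤ C * ((w.length : ℝ) + 1)

end Pool.Agent.Helper81.JR
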