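import Pool.Agent.Helper81.JR.Sim
import Pool.Agent.Helper92.RE.Good

/-!
# Programs of random access machines as machines with tapes on which the heads can jump: bounds
-/

set_option autoImplicit false

namespace Pool.Agent.Helper81.JR

open Pool.Agent.Helper65.LinSpace Pool.Agent.Helper78.Mpc Pool.Agent.Helper28.Ram
open Pool.Agent.Helper65.BR (Jumper)
open Pool.Agent.Helper81.RP (Ins lett step AcceptsAt conf conf_succ wd num_wd uu accF_le bd
  wd_one length_wd_le pc_le)
open Pool.Agent.Helper92.RE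

theorem last_lt {P : List Ins} {x y : List Bool} {K t b : ℕ}
    (h : ∀ k ≤ t, ∀ z, acc P (conf P x y k) = some z → z < 2 ^ b) (i : ℕ) {k : ℕ}
    (hk : k ≤ t + 1) : last P x y K i k < 2 ^ b := by
  induction k with
  | zero => exact Nat.two_pow_pos _
  | succ k ih =>
    rw [last_succ]
    by_cases h1 : isLS P[(conf P x y k).1]? ≠ 0 ∧ uu P (conf P x y k) % K = i
    · rw [if_pos h1]
      refine (Nat.div_le_self _ _).trans_lt (h k (by omega) _ ?_)
      rw [acc_eq, if_neg h1.1]
    · rw [if_neg h1]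
      exact ih (by omega)

theorem acc_lt {P : List Ins} {x y : List Bool} {t s : ℕ}
    (h : ∀ k ≤ t, ∀ i, (conf P x y k).2 i < 2 ^ s) : ∀ k ≤ t, ∀ z,
    acc P (conf P x y k) = some z → z < 2 ^ s := by
  intro k hk z hz
  rw [acc_eq] at hz
  by_cases h1 : isLS P[(conf P x y k).1]? = 0
  · rw [if_pos h1] at hz
    exact absurd hz (by simp)
  · rw [if_neg h1] at hz
    have h2 := Option.some.inj hz
    rw [← h2]
    exact h k hk _

theorem two_pow_gt (a s : ℕ) (hs : 1 ≤ s) : a + 1 < 2 ^ ((a + 2) * s) := by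
  have h1 : a + 2 ≤ (a + 2) * s := Nat.le_mul_of_pos_right _ hs
  calc a + 1 < 2 ^ (a + 1) := Nat.lt_two_pow_self
    _ ≤ 2 ^ ((a + 2) * s) := Nat.pow_le_pow_right (by norm_num) (by omega)

/-- The constant for the bound of the state. -/
def cK (K : ℕ) (P : List Ins) : ℕ := bd P + 2 + 2 ^ (bd P + 1) + 2 ^ K

section

variable {D : LD} {F : List Bool → List Bool} (hF : D.Is F) {K : ℕ} (hK : 0 < K) {P : List Ins}
  {w y : List Bool}

include hF hK in
theorem cell_mach {τ : ℕ} (hτ : w.length ≤ τ) (i : Fin K) :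
    (mach D K P).cell ((mach D K P).conf w y τ).1 i = last P (F w) y K i (τ - w.length) := by
  rcases Nat.eq_or_lt_of_le hτ with h | h
  · rw [← h, conf_machA D K P w y le_rfl, cell_wd D K P (sto_pos _ _ _ _ _), Nat.sub_self]
    unfold posG
    rw [pO_sto (by omega), ifz_zero]
    rfl
  · obtain ⟨k, rfl⟩ : ∃ k, τ = w.length + 1 + k := ⟨τ - w.length - 1, by omega⟩
    have hpos : 0 < stN K P (F w) y w.length k := sto_pos _ _ _ _ _
    rw [conf_mach hF hK, cell_wd D K P hpos, posG_stN K P (F w) y w.length k i.2]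
    congr 1
    omega

theorem cell_machA {τ : ℕ} (hτ : τ ≤ w.length) (i : Fin K) :
    (mach D K P).cell ((mach D K P).conf w y τ).1 i = 0 := by
  rw [conf_machA D K P w y hτ, cell_wd D K P (sto_pos _ _ _ _ _)]
  unfold posG
  rw [pO_sto (by omega), ifz_zero]

include hF hK in
theorem jumps_mach {t : ℕ} (hacc : AcceptsAt P (F w) y t) :
    (mach D K P).jumps w y (w.length + 1 + t) ≤ jumps P (F w) y K t := by
  have hfin : {k : ℕ | k < t ∧ Jump P (F w) y K k}.Finite :=
    (Set.finite_lt_nat t).subset fun k hk => hk.1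
  unfold Jumper.jumps jumps
  refine (Set.ncard_le_ncard ?_ (hfin.image fun k => ((w.length + k,
    ⟨uu P (conf P (F w) y k) % K, Nat.mod_lt _ hK⟩) : ℕ × Fin K))).trans
      (Set.ncard_image_le hfin)
  rintro ⟨τ, i⟩ ⟨h1, h2⟩
  dsimp only at h1 h2
  have hτ : w.length ≤ τ := by
    by_contra hcon
    rw [cell_machA (by omega), cell_machA (by omega)] at h2
    omega
  obtain ⟨k, rfl⟩ : ∃ k, τ = w.length + k := ⟨τ - w.length, by omega⟩
  rw [cell_mach hF hK hτ, cell_mach hF hK (by omega), Nat.add_sub_cancel_left,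
    show w.length + k + 1 - w.length = k + 1 by omega, last_succ] at h2
  by_cases h3 : isLS P[(conf P (F w) y k).1]? ≠ 0 ∧ uu P (conf P (F w) y k) % K = i
  · rw [if_pos h3] at h2
    have hkt : k ≠ t := by
      rintro rfl
      have h4 : P[(conf P (F w) y k).1]? = some .accept := hacc
      rw [h4] at h3
      exact h3.1 rfl
    refine ⟨k, ⟨by omega, uu P (conf P (F w) y k), ?_, ?_⟩, ?_⟩
    · rw [acc_eq, if_neg h3.1]
    · rw [h3.2]
      omega
    · refine Prod.ext rfl (Fin.ext ?_)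
      exact h3.2
  · rw [if_neg h3] at h2
    omega

theorem jumps_le (P : List Ins) (x y : List Bool) (K t : ℕ) : jumps P x y K t ≤ t := by
  unfold jumps
  refine (Set.ncard_le_ncard (fun k hk => hk.1) (Set.finite_lt_nat t)).trans ?_
  have h : {k : ℕ | k < t} = ↑(Finset.range t) := by
    ext k
    simp
  rw [h, Set.ncard_coe_finset, Finset.card_range]

include hF hK in
theorem fits_mach {t s b : ℕ} (hs : 1 ≤ s) (hn : w.length < 2 ^ s)
    (hR : ∀ k ≤ t, ∀ i, (conf P (F w) y k).2 i < 2 ^ s)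
    (hb : ∀ k ≤ t, ∀ z, acc P (conf P (F w) y k) = some z → z < 2 ^ b) :
    (mach D K P).Fits w y (w.length + 1 + t) ((8 * cK K P + 1) * s) b s := by
  have hp1 := Nat.two_pow_pos (bd P + 1)
  have hp2 := Nat.two_pow_pos K
  have hck : bd P + 2 ≤ cK K P := by
    unfold cK
    omega
  have hck1 : 1 ≤ cK K P := by omega
  have hsc : s ≤ cK K P * s := Nat.le_mul_of_pos_left _ hck1
  have hss : s ≤ (8 * cK K P + 1) * s := Nat.le_mul_of_pos_left _ (by omega)
  have hlen : 8 * (cK K P * s) + 1 ≤ (8 * cK K P + 1) * s := by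
    rw [Nat.add_mul, Nat.mul_assoc, one_mul]
    omega
  have hpow : ∀ j : ℕ, j ≤ cK K P → 2 ^ (j * s) ≤ 2 ^ (cK K P * s) := fun j hj =>
    Nat.pow_le_pow_right (by norm_num) (Nat.mul_le_mul_right _ hj)
  have hpow1 : 2 ^ s ≤ 2 ^ (cK K P * s) := Nat.pow_le_pow_right (by norm_num) hsc
  have h2 : 1 < 2 ^ (cK K P * s) := Nat.one_lt_two_pow (by
    have := Nat.mul_pos hck1 hs
    omega)
  have hbs : ∀ j : ℕ, j < 2 ^ s → j.bits.length ≤ s := fun j hj => length_bits hj
  intro τ hτ
  rcases le_or_gt τ w.length with h | h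
  · -- the computation of the length
    rw [conf_machA D K P w y h]
    refine ⟨?_, ?_, fun i => ?_, fun i z => Nat.zero_le _⟩
    · refine (length_sto (s := cK K P * s) (by omega) (by omega) ?_ (by omega)
        (by omega)).trans hlen
      omega
    · have ha : addrF D P (sto 0 0 τ 0 0) = bitsN τ := by
        unfold addrF
        rw [pO_sto (by omega), ifz_zero, nO_sto (by omega)]
      rw [addr_wd D K P (sto_pos _ _ _ _ _) ha]
      exact (hbs τ (by omega)).trans hss
    · dsimp only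
      rw [pos_wd D K P (sto_pos _ _ _ _ _)]
      unfold posG
      rw [pO_sto (by omega), ifz_zero]
      exact Nat.zero_le _
  · obtain ⟨k, rfl⟩ : ∃ k, τ = w.length + 1 + k := ⟨τ - w.length - 1, by omega⟩
    have hk : k ≤ t := by omega
    have hpos : 0 < stN K P (F w) y w.length k := sto_pos _ _ _ _ _
    rw [conf_mach hF hK]
    refine ⟨?_, ?_, fun i => ?_, fun i z => ?_⟩
    · refine (length_sto (s := cK K P * s) (accF_le _ _) ?_ ?_ ?_ ?_).trans hlen
      · have h3 := pc_le P (F w) y k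
        have h4 := two_pow_gt (bd P) s hs
        have h5 := hpow (bd P + 2) hck
        omega
      · omega
      · refine (tup_lt (s := s) fun i _ => hR k hk i).trans_le (hpow _ ?_)
        unfold cK
        omega
      · refine (tup_lt (s := s) fun i _ => last_lt (acc_lt hR) i (by omega)).trans_le (hpow _ ?_)
        unfold cK
        omega
    · rw [addr_wd D K P hpos (addrF_stN D K P (F w) y w.length k)]
      refine (hbs _ ?_).trans hss
      unfold adN ifz
      split_ifs
      · exact Nat.two_pow_pos _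
      · exact adr1_lt hn
      · exact hR k hk _
    · dsimp only
      rw [pos_wd D K P hpos, posG_stN K P (F w) y w.length k i.2]
      exact length_bits (last_lt hb i (by omega))
    · dsimp only
      refine length_wd_le (Nat.succ_pos _) ?_
      have h3 := mem_lt hR hk (z * K + i)
      rw [pow_succ]
      omega

end

/-- The bounds. -/
theorem bounds {C N N' B l l' s t J J' c₁ : ℝ} (hl : 0 ≤ l') (hll : l' ≤ l)
    (hs : 1 ≤ s) (hl's : l' ≤ 2 * s) (ht : 0 ≤ t) (hJ' : 0 ≤ J') (hJJ : J' ≤ J) (hJt : J ≤ t)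
    (hN : 1 ≤ N) (hNN : N ≤ N') (hB : 1 ≤ B) (hN' : N' ≤ B * N) (hc : 0 ≤ c₁)
    (b1 : t * (J + N') * s * l ^ 4 ≤ C * N' ^ 3) (b2 : s * l ^ 4 ≤ C * N') :
    (N + t) * (J' + N) * (s + 1) * l' ^ 4 ≤ (6 + c₁ + 3) * |C| * B ^ 3 * N ^ 3 ∧
      (c₁ * s + s + l') * l' ^ 4 ≤ (6 + c₁ + 3) * |C| * B ^ 3 * N := by
  have hC : 0 ≤ |C| := abs_nonneg C
  have hJ : 0 ≤ J := hJ'.trans hJJ
  have hN0 : 0 ≤ N := by linarith
  have hN'0 : 0 ≤ N' := by linarith
  have hB0 : 0 ≤ B := by linarith
  have hs0 : 0 ≤ s := by linarith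
  have hl0 : 0 ≤ l := hl.trans hll
  have hB3 : B ≤ B ^ 3 := le_self_pow₀ hB (by norm_num)
  have c1 : t * (J + N') * s * l ^ 4 ≤ |C| * B ^ 3 * N ^ 3 := by
    calc t * (J + N') * s * l ^ 4 ≤ C * N' ^ 3 := b1
      _ ≤ |C| * N' ^ 3 := mul_le_mul_of_nonneg_right (le_abs_self C) (by positivity)
      _ ≤ |C| * (B * N) ^ 3 := by gcongr
      _ = _ := by ring
  have c2 : s * l ^ 4 ≤ |C| * B ^ 3 * N := by
    calc s * l ^ 4 ≤ C * N' := b2
      _ ≤ |C| * N' := mul_le_mul_of_nonneg_right (le_abs_self C) hN'0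
      _ ≤ |C| * (B ^ 3 * N) := by
        refine mul_le_mul_of_nonneg_left (hN'.trans ?_) hC
        exact mul_le_mul_of_nonneg_right hB3 hN0
      _ = _ := by ring
  have hM : 0 ≤ |C| * B ^ 3 := by positivity
  constructor
  · calc (N + t) * (J' + N) * (s + 1) * l' ^ 4 ≤ (N + t) * (J + N) * (2 * s) * l ^ 4 := by
          gcongr
          linarith
      _ = 2 * (t * (J + N) * s * l ^ 4) + 2 * (N * J * s * l ^ 4) +
          2 * (N ^ 2 * (s * l ^ 4)) := by ring
      _ ≤ 2 * (t * (J + N') * s * l ^ 4) + 2 * (t * (J + N') * s * l ^ 4) +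
          2 * (N ^ 2 * (s * l ^ 4)) := by
        have e1 : t * (J + N) * s * l ^ 4 ≤ t * (J + N') * s * l ^ 4 := by gcongr
        have e2 : N * J * s * l ^ 4 ≤ t * (J + N') * s * l ^ 4 := by
          have e3 : N * J ≤ t * (J + N') := by nlinarith
          gcongr
        linarith
      _ ≤ 2 * (|C| * B ^ 3 * N ^ 3) + 2 * (|C| * B ^ 3 * N ^ 3) +
          2 * (N ^ 2 * (|C| * B ^ 3 * N)) := by gcongr
      _ = 6 * (|C| * B ^ 3 * N ^ 3) := by ring
      _ ≤ (6 + c₁ + 3) * (|C| * B ^ 3 * N ^ 3) := by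
        refine mul_le_mul_of_nonneg_right (by linarith) (by positivity)
      _ = _ := by ring
  · calc (c₁ * s + s + l') * l' ^ 4 ≤ (c₁ * s + s + 2 * s) * l ^ 4 := by gcongr
      _ = (c₁ + 3) * (s * l ^ 4) := by ring
      _ ≤ (c₁ + 3) * (|C| * B ^ 3 * N) := by gcongr
      _ ≤ (6 + c₁ + 3) * (|C| * B ^ 3 * N) := by
        refine mul_le_mul_of_nonneg_right (by linarith) (by positivity)
      _ = _ := by ring

/-- **The bounds for the machine** which runs the program. -/
theorem within_mach {D : LD} {F : List Bool → List Bool} (hF : D.Is F) {b₀ : ℕ}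
    (hlen : ∀ w, (F w).length ≤ b₀ * (w.length + 1)) (hle : ∀ w, w.length ≤ (F w).length)
    {K : ℕ} (hK : 0 < K) (P : List Ins) (C : ℝ) :
    ∃ C' : ℝ, ∀ w y : List Bool, Within P K C (F w) y → (mach D K P).Within C' w y := by
  set B : ℝ := (b₀ : ℝ) + 1 with hB
  have hB1 : 1 ≤ B := by
    have h1 : (0 : ℝ) ≤ b₀ := Nat.cast_nonneg _
    linarith
  refine ⟨(6 + (8 * (cK K P : ℝ) + 1) + 3) * |C| * B ^ 3, ?_⟩
  rintro w y ⟨t, s, b, hls, hacc, hR, hb, b1, b2⟩
  have hwx : w.length ≤ (F w).length := hle w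
  have hs1 : 1 ≤ s := by omega
  have hlogF : Nat.log 2 w.length ≤ Nat.log 2 (F w).length := Nat.log_mono_right hwx
  have hn : w.length < 2 ^ s := by
    refine hwx.trans_lt ((Nat.lt_pow_succ_log_self (b := 2) (by norm_num) _).trans_le ?_)
    exact Nat.pow_le_pow_right (by norm_num) hls
  have hb' : ∀ k ≤ t, ∀ z, acc P (conf P (F w) y k) = some z → z < 2 ^ min b s := by
    intro k hk z hz
    rcases le_total b s with h | h
    · rw [min_eq_left h]
      exact hb k hk z hz
    · rw [min_eq_right h]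
      exact acc_lt hR k hk z hz
  have hN' : ((F w).length : ℝ) + 1 ≤ B * ((w.length : ℝ) + 1) := by
    have h1 : (F w).length + 1 ≤ (b₀ + 1) * (w.length + 1) := by
      have h2 := hlen w
      calc (F w).length + 1 ≤ b₀ * (w.length + 1) + 1 := by omega
        _ ≤ (b₀ + 1) * (w.length + 1) := by nlinarith
    rw [hB]
    exact_mod_cast h1
  have hJ1 := jumps_mach (D := D) hF hK hacc
  have hJ2 := jumps_le P (F w) y K t
  have h0 : (0 : ℝ) ≤ w.length := Nat.cast_nonneg _
  have hNN : (w.length : ℝ) + 1 ≤ ((F w).length : ℝ) + 1 := by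
    have : (w.length : ℝ) ≤ (F w).length := by exact_mod_cast hwx
    linarith
  have hll : (((min b s : ℕ) : ℝ) + ((Nat.log 2 w.length : ℝ) + 1)) ≤
      (b : ℝ) + ((Nat.log 2 (F w).length : ℝ) + 1) := by
    have h1 : ((min b s : ℕ) : ℝ) ≤ b := by exact_mod_cast min_le_left b s
    have h2 : (Nat.log 2 w.length : ℝ) ≤ Nat.log 2 (F w).length := by exact_mod_cast hlogF
    linarith
  have hls2 : (((min b s : ℕ) : ℝ) + ((Nat.log 2 w.length : ℝ) + 1)) ≤ 2 * s := by
    have h1 : min b s + (Nat.log 2 w.length + 1) ≤ 2 * s := by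
      have := min_le_right b s
      omega
    exact_mod_cast h1
  obtain ⟨q1, q2⟩ := bounds (C := C) (N := (w.length : ℝ) + 1) (N' := ((F w).length : ℝ) + 1)
    (B := B) (l := (b : ℝ) + ((Nat.log 2 (F w).length : ℝ) + 1))
    (l' := ((min b s : ℕ) : ℝ) + ((Nat.log 2 w.length : ℝ) + 1)) (s := (s : ℝ)) (t := (t : ℝ))
    (J := (jumps P (F w) y K t : ℝ)) (J' := ((mach D K P).jumps w y (w.length + 1 + t) : ℝ))
    (c₁ := 8 * (cK K P : ℝ) + 1) (by positivity) hll (by exact_mod_cast hs1) hls2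
    (Nat.cast_nonneg _) (Nat.cast_nonneg _) (by exact_mod_cast hJ1) (by exact_mod_cast hJ2)
    (by linarith) hNN hB1 hN' (by positivity) (by rw [← add_assoc]; exact b1) b2
  refine ⟨w.length + 1 + t, (8 * cK K P + 1) * s, min b s, s,
    (accepts_iff hF hK P w y _).2 ⟨t, rfl, hacc⟩, fits_mach hF hK hs1 hn hR hb', ?_, ?_⟩
  · push_cast at q1 ⊢
    rw [add_assoc ((mach D K P).jumps w y (w.length + 1 + t) : ℝ)]
    exact q1
  · push_cast at q2 ⊢
    exact q2

end Pool.Agent.Helper81.JR
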