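import Pool.Agent.Helper81.JR.Defs
import Pool.Agent.Helper92.RE.Mach
import Pool.Agent.Helper65.BR.JDefs

/-!
# Programs of random access machines as machines with tapes on which the heads can jump
-/

set_option autoImplicit false

namespace Pool.Agent.Helper81.JR

open Pool.Agent.Helper65.LinSpace Pool.Agent.Helper78.Mpc Pool.Agent.Helper28.Ram
open Pool.Agent.Helper65.OH (letW)
open Pool.Agent.Helper65.BR (Jumper)
open Pool.Agent.Helper81.RP (Ins lett step AcceptsAt conf wd wf num_wd wd_num wf_eq linComp_wf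
  length_wd ls_pair hd tl ls_hd ls_tl hd_eq tl_eq a0 a1 dst npc uu ls_a1 ls_dst
  ls_npc selF selF_eq ls_selF isA accF accF_le accF_eq_one ls_accF bd pair_lt)
open Pool.Agent.Helper92.RE

/-! ### Vectors -/

/-- The code of the vector `f 0, …, f (m - 1)`. -/
def tup : ℕ → (ℕ → ℕ) → ℕ
  | 0, _ => 0
  | m + 1, f => Nat.pair (f 0) (tup m fun i => f (i + 1))

/-- The component number `i`. -/
def getV : ℕ → ℕ → ℕ → ℕ
  | 0, _, _ => 0
  | m + 1, x, i => ifz i (Nat.unpair x).1 (getV m (Nat.unpair x).2 (i - 1))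

/-- Change the component number `i` to `v`. -/
def setV : ℕ → ℕ → ℕ → ℕ → ℕ
  | 0, x, _, _ => x
  | m + 1, x, i, v => ifz i (Nat.pair v (Nat.unpair x).2)
      (Nat.pair (Nat.unpair x).1 (setV m (Nat.unpair x).2 (i - 1) v))

theorem getV_tup {m : ℕ} {f : ℕ → ℕ} {i : ℕ} (hi : i < m) : getV m (tup m f) i = f i := by
  induction m generalizing f i with
  | zero => omega
  | succ m ih =>
    unfold getV tup
    rw [Nat.unpair_pair]
    rcases i with _ | i
    · rw [ifz_zero]
    · rw [ifz_ne (Nat.succ_ne_zero _), Nat.add_sub_cancel, ih (by omega)]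

theorem tup_congr {m : ℕ} {f g : ℕ → ℕ} (h : ∀ i < m, f i = g i) : tup m f = tup m g := by
  induction m generalizing f g with
  | zero => rfl
  | succ m ih =>
    unfold tup
    rw [h 0 (by omega), ih fun i hi => h (i + 1) (by omega)]

theorem setV_tup (m : ℕ) (f : ℕ → ℕ) (i v : ℕ) :
    setV m (tup m f) i v = tup m (Function.update f i v) := by
  induction m generalizing f i with
  | zero => rfl
  | succ m ih =>
    unfold setV tup
    rw [Nat.unpair_pair]
    rcases i with _ | i
    · rw [ifz_zero, Function.update_self]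
      congr 1
    · rw [ifz_ne (Nat.succ_ne_zero _), Nat.add_sub_cancel, ih]
      rw [Function.update_of_ne (by omega)]
      congr 2
      funext j
      by_cases h : j = i
      · subst h
        rw [Function.update_self, Function.update_self]
      · rw [Function.update_of_ne h, Function.update_of_ne (by omega)]

theorem tup_zero (m : ℕ) : tup m (fun _ => 0) = 0 := by
  induction m with
  | zero => rfl
  | succ m ih =>
    unfold tup
    rw [ih]
    rfl

theorem tup_lt {m s : ℕ} {f : ℕ → ℕ} (h : ∀ i < m, f i < 2 ^ s) : tup m f < 2 ^ (2 ^ m * s) := by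
  induction m generalizing f with
  | zero => exact Nat.two_pow_pos _
  | succ m ih =>
    have h1 := ih (f := fun i => f (i + 1)) fun i hi => h (i + 1) (by omega)
    have h2 : f 0 < 2 ^ (2 ^ m * s) := (h 0 (by omega)).trans_le
      (Nat.pow_le_pow_right (by norm_num) (Nat.le_mul_of_pos_left _ (Nat.two_pow_pos _)))
    have h3 := pair_lt h2 h1
    unfold tup
    refine h3.trans_le (le_of_eq ?_)
    congr 1
    rw [pow_succ]
    ring

/-! ### The words which are read -/

/-- The number of the block number `i < K` of a word which consists of `K` blocks. -/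
def blkV : ℕ → ℕ → ℕ → ℕ
  | 0, _, _ => 0
  | K + 1, x, i => ifz i (hd x) (blkV K (tl x) (i - 1))

theorem blkV_eq {K : ℕ} (v : Fin K → List Bool) (i : Fin K) :
    blkV K (num ((List.finRange K).flatMap fun i => sd (v i))) i = num (v i) := by
  induction K with
  | zero => exact i.elim0
  | succ K ih =>
    have e : ((List.finRange (K + 1)).flatMap fun i => sd (v i)) =
        sd (v 0) ++ (List.finRange K).flatMap fun i => sd (v i.succ) := by
      rw [List.finRange_succ, List.flatMap_cons, List.flatMap_map]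
    rw [e]
    unfold blkV
    rw [hd_eq, tl_eq]
    refine Fin.cases ?_ (fun j => ?_) i
    · rw [Fin.val_zero, ifz_zero]
    · rw [Fin.val_succ, ifz_ne (Nat.succ_ne_zero _), Nat.add_sub_cancel]
      exact ih (fun i => v i.succ) j

/-- The code of a letter. -/
def l3 (c : ℕ) : ℕ := ifz c 0 (ifz (c - 1) 1 2)

theorem num_letW (o : Option Bool) (r : List Bool) :
    num (letW o ++ r) = (ifz (lett o) 0 (ifz (lett o - 1) 1 3)) + 4 * num r := by
  rcases o with _ | b
  · simp [letW, num, lett, ifz]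
    ring
  · cases b
    · simp [letW, num, lett, ifz]
      ring
    · simp [letW, num, lett, ifz]
      ring

theorem l3_letW (o : Option Bool) (r : List Bool) : l3 (num (letW o ++ r) % 4) = lett o := by
  rw [num_letW]
  rcases o with _ | b
  · simp [lett, ifz, l3]
  · cases b
    · simp [lett, ifz, l3, Nat.add_mul_mod_self_left]
    · simp [lett, ifz, l3, Nat.add_mul_mod_self_left]

theorem div_letW (o : Option Bool) (r : List Bool) : num (letW o ++ r) / 4 = num r := by
  rw [num_letW]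
  have h : (ifz (lett o) 0 (ifz (lett o - 1) 1 3)) < 4 := by
    unfold ifz
    split_ifs <;> norm_num
  omega

/-- The value `bval` of the word with the number `v`. -/
def bvN (v : ℕ) : ℕ := v - 2 ^ Nat.log 2 v

theorem num_eq_bval (u : List Bool) : num u = bval u + 2 ^ u.length := by
  induction u with
  | nil => rfl
  | cons b u ih =>
    show b.toNat + 2 * num u = (b.toNat + 2 * bval u) + 2 ^ (u.length + 1)
    rw [ih, pow_succ]
    ring

theorem bvN_bitsN (i : ℕ) : bvN (bitsN i) = i := by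
  unfold bvN
  rw [bitsN_eq, log_num, num_eq_bval, Nat.add_sub_cancel]
  exact Pool.Agent.Helper31.TMS.bval_bits i

/-! ### The functions of the machine -/

/-- `1` for the instructions `load` and `store`. -/
def isLS : Option Ins → ℕ
  | some (.load _ _) => 1
  | some (.store _ _) => 1
  | _ => 0

/-- `1` for the instruction `store`. -/
def isSt : Option Ins → ℕ
  | some (.store _ _) => 1
  | _ => 0

/-- The content of the first register which is read, in the state `S`. -/
def uS (m S : ℕ) (o : Option Ins) : ℕ := getV m (uO S) (a0 o)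

/-- The content of the second register, or the letter, in the state `S`, `Z` being the number of the
word which is read. -/
def vS (D : LD) (K m S Z : ℕ) (o : Option Ins) : ℕ :=
  ifz (inpL o) (ifz (lt01 (a1 o (uS m S o)) m) (blkV K (Z / 16) (uS m S o % K) - 1)
      (getV m (uO S) (a1 o (uS m S o))))
    (ifz (inpL o - 1) (D.lt (nO S) (uS m S o) (l3 (Z % 4))) (l3 (Z / 4 % 4)))

/-- The new state. -/
def nxS (D : LD) (K : ℕ) (P : List Ins) (S Z : ℕ) (o : Option Ins) : ℕ :=
  sto (accF P (npc o (pO S - 1) (uS (bd P + 1) S o))) (npc o (pO S - 1) (uS (bd P + 1) S o) + 1)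
    (nO S) (setV (bd P + 1) (uO S) (dst o (uS (bd P + 1) S o))
      (valL o (uS (bd P + 1) S o) (vS D K (bd P + 1) S Z o)))
    (ifz (isLS o) (vO S) (setV K (vO S) (uS (bd P + 1) S o % K) (uS (bd P + 1) S o / K)))

/-- The new state. -/
def nextF (D : LD) (K : ℕ) (P : List Ins) (x : ℕ) : ℕ :=
  ifz (pO (hd x)) (ifz (l3 (tl x % 4)) (sto (accF P 0) 1 (nO (hd x)) 0 0)
    (sto 0 0 (nO (hd x) + 1) 0 0))
  (selF (fun o x => nxS D K P (hd x) (tl x) o) P (pO (hd x) - 1) x)

/-- The address of the letters. -/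
def addrF (D : LD) (P : List Ins) (S : ℕ) : ℕ :=
  bitsN (ifz (pO S) (nO S) (selF (fun o S => ifz (inpL o) 0 (ifz (inpL o - 1)
    (adr1 D (nO S) (uS (bd P + 1) S o)) (uS (bd P + 1) S o))) P (pO S - 1) S))

/-- The positions of the heads. -/
def posG (K : ℕ) (P : List Ins) (i S : ℕ) : ℕ :=
  ifz (pO S) 0 (selF (fun o S => ifz (isLS o * eq01 i (uS (bd P + 1) S o % K)) (getV K (vO S) i)
    (uS (bd P + 1) S o / K)) P (pO S - 1) S)

/-- The positions of the heads. -/
def posF (K : ℕ) (P : List Ins) (x : ℕ) : ℕ := bitsN (posG K P (bvN (hd x)) (tl x))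

/-- The new contents. -/
def wrG (D : LD) (K : ℕ) (P : List Ins) (i S Z : ℕ) : ℕ :=
  ifz (pO S) (blkV K (Z / 16) i) (selF (fun o S => ifz (isSt o * eq01 i (uS (bd P + 1) S o % K))
    (blkV K (Z / 16) i) (valL o (uS (bd P + 1) S o) (vS D K (bd P + 1) S Z o) + 1)) P (pO S - 1) S)

/-- The new contents. -/
def writeF (D : LD) (K : ℕ) (P : List Ins) (x : ℕ) : ℕ :=
  wrG D K P (bvN (hd x)) (hd (tl x)) (tl (tl x))

section

variable {α : Type} [Ctx α]

theorem ls_getV (m : ℕ) {x i : α → ℕ} (hx : LS x) (hi : LS i) :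
    LS (fun a => getV m (x a) (i a)) := by
  induction m generalizing x i with
  | zero => exact LS.const 0
  | succ m ih =>
    have h1 := ih (x := fun a => (Nat.unpair (x a)).2) (i := fun a => i a - 1) (by fun_prop)
      (by fun_prop)
    have h2 : LS (fun a => (Nat.unpair (x a)).1) := by fun_prop
    exact LS.ifz hi h2 h1

theorem ls_setV (m : ℕ) {x i v : α → ℕ} (hx : LS x) (hi : LS i) (hv : LS v) :
    LS (fun a => setV m (x a) (i a) (v a)) := by
  induction m generalizing x i with
  | zero => exact hx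
  | succ m ih =>
    have h1 := ih (x := fun a => (Nat.unpair (x a)).2) (i := fun a => i a - 1) (by fun_prop)
      (by fun_prop)
    have h2 : LS (fun a => (Nat.unpair (x a)).1) := by fun_prop
    have h3 : LS (fun a => (Nat.unpair (x a)).2) := by fun_prop
    exact LS.ifz hi (ls_pair hv h3) (ls_pair h2 h1)

theorem ls_blkV (K : ℕ) {x i : α → ℕ} (hx : LS x) (hi : LS i) :
    LS (fun a => blkV K (x a) (i a)) := by
  induction K generalizing x i with
  | zero => exact LS.const 0
  | succ K ih =>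
    have h1 := ih (x := fun a => tl (x a)) (i := fun a => i a - 1) (LS.comp (g := tl) ls_tl hx)
      (by fun_prop)
    exact LS.ifz hi (LS.comp (g := hd) ls_hd hx) h1

theorem ls_l3 {c : α → ℕ} (hc : LS c) : LS (fun a => l3 (c a)) := by
  unfold l3
  exact LS.ifz hc (LS.const 0) (LS.ifz (by fun_prop) (LS.const 1) (LS.const 2))

theorem ls_bvN {c : α → ℕ} (hc : LS c) : LS (fun a => bvN (c a)) :=
  LS.sub hc (LS.pow_log hc)

theorem ls_uS (m : ℕ) (o : Option Ins) {S : α → ℕ} (hS : LS S) :
    LS (fun a => uS m (S a) o) := ls_getV m (ls_uO hS) (LS.const _)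

theorem ls_vS (D : LD) (K m : ℕ) (o : Option Ins) {S Z : α → ℕ} (hS : LS S) (hZ : LS Z) :
    LS (fun a => vS D K m (S a) (Z a) o) := by
  have hu := ls_uS m o hS
  have h1 := ls_a1 o hu
  have h2 : LS (fun a => blkV K (Z a / 16) (uS m (S a) o % K)) :=
    ls_blkV K (by fun_prop) (by fun_prop)
  have h3 := ls_getV m (ls_uO hS) h1
  have h4 := D.ls_lt' (ls_nO hS) hu (ls_l3 (c := fun a => Z a % 4) (by fun_prop))
  have h5 := ls_l3 (c := fun a => Z a / 4 % 4) (by fun_prop)
  exact LS.ifz (LS.const _) (LS.ifz (LS.lt01 h1 (LS.const _)) (LS.sub h2 (LS.const 1)) h3)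
    (LS.ifz (LS.const _) h4 h5)

theorem ls_nxS (D : LD) (K : ℕ) (P : List Ins) (o : Option Ins) {S Z : α → ℕ} (hS : LS S)
    (hZ : LS Z) : LS (fun a => nxS D K P (S a) (Z a) o) := by
  have hu := ls_uS (bd P + 1) o hS
  have hv := ls_vS D K (bd P + 1) o hS hZ
  have h1 := ls_npc o (p := fun a => pO (S a) - 1) (LS.sub (ls_pO hS) (LS.const 1)) hu
  have h2 := ls_accF P h1
  have h3 := ls_setV (bd P + 1) (ls_uO hS) (ls_dst o hu) (ls_valL o hu hv)
  have h4 := ls_setV K (ls_vO hS) (i := fun a => uS (bd P + 1) (S a) o % K)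
    (v := fun a => uS (bd P + 1) (S a) o / K) (by fun_prop) (by fun_prop)
  exact ls_sto h2 (LS.add h1 (LS.const 1)) (ls_nO hS) h3 (LS.ifz (LS.const _) (ls_vO hS) h4)

end

theorem ls_nextF (D : LD) (K : ℕ) (P : List Ins) : LS (nextF D K P) := by
  have hh := ls_hd
  have ht := ls_tl
  have hp : LS (fun x : ℕ => pO (hd x)) := ls_pO hh
  have hn : LS (fun x : ℕ => nO (hd x)) := ls_nO hh
  have g1 := ls_sto (LS.const (α := ℕ) (accF P 0)) (LS.const 1) hn (LS.const 0) (LS.const 0)
  have g2 := ls_sto (LS.const (α := ℕ) 0) (LS.const 0) (LS.add hn (LS.const 1)) (LS.const 0)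
    (LS.const 0)
  have ht' : LS (fun x : ℕ => tl x) := ht
  have g3 := ls_l3 (α := ℕ) (c := fun x => tl x % 4) (by fun_prop)
  exact LS.ifz hp (LS.ifz g3 g1 g2) (ls_selF (fun o => ls_nxS D K P o hh ht) P (by fun_prop))

theorem ls_addrF (D : LD) (P : List Ins) : LS (addrF D P) := by
  have hi : LS (fun x : ℕ => x) := by fun_prop
  have hp : LS (fun x : ℕ => pO x) := ls_pO hi
  have hn : LS (fun x : ℕ => nO x) := ls_nO hi
  refine LS.bitsN (LS.ifz hp hn (ls_selF (fun o => ?_) P (by fun_prop)))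
  have hu := ls_uS (bd P + 1) o hi
  exact LS.ifz (LS.const _) (LS.const 0) (LS.ifz (LS.const _) (ls_adr1 D hn hu) hu)

theorem ls_posG (K : ℕ) (P : List Ins) : LS (fun z : ℕ × ℕ => posG K P z.1 z.2) := by
  have h1 : LS (fun z : ℕ × ℕ => z.1) := by fun_prop
  have h2 : LS (fun z : ℕ × ℕ => z.2) := by fun_prop
  have hp : LS (fun z : ℕ × ℕ => pO z.2) := ls_pO h2
  have hs := ls_selF (α := ℕ × ℕ) (G := fun o z => ifz (isLS o * eq01 z.1 (uS (bd P + 1) z.2 o % K))
    (getV K (vO z.2) z.1) (uS (bd P + 1) z.2 o / K)) (fun o => by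
      have hu := ls_uS (bd P + 1) o h2
      have hg := ls_getV K (ls_vO h2) h1
      exact LS.ifz (LS.mul (LS.const _) (LS.eq01 h1 (by fun_prop))) hg (by fun_prop)) P
      (pc := fun z => pO z.2 - 1) (by fun_prop)
  have e : (fun z : ℕ × ℕ => posG K P z.1 z.2) = fun z => ifz (pO z.2) 0
      (selF (fun o (z : ℕ × ℕ) => ifz (isLS o * eq01 z.1 (uS (bd P + 1) z.2 o % K))
        (getV K (vO z.2) z.1) (uS (bd P + 1) z.2 o / K)) P (pO z.2 - 1) z) := by
    funext z
    unfold posG
    rw [selF_eq, selF_eq]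
  rw [e]
  exact LS.ifz hp (LS.const 0) hs

theorem ls_posF (K : ℕ) (P : List Ins) : LS (posF K P) := by
  have h1 := ls_bvN ls_hd
  exact LS.bitsN (LS.comp (g := fun z : ℕ × ℕ => posG K P z.1 z.2)
    (f := fun x => (bvN (hd x), tl x)) (ls_posG K P) (by
      have ht : LS (fun x : ℕ => tl x) := ls_tl
      fun_prop))

theorem ls_wrG (D : LD) (K : ℕ) (P : List Ins) :
    LS (fun z : ℕ × ℕ × ℕ => wrG D K P z.1 z.2.1 z.2.2) := by
  have h1 : LS (fun z : ℕ × ℕ × ℕ => z.1) := by fun_prop
  have h2 : LS (fun z : ℕ × ℕ × ℕ => z.2.1) := by fun_prop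
  have h3 : LS (fun z : ℕ × ℕ × ℕ => z.2.2) := by fun_prop
  have hp : LS (fun z : ℕ × ℕ × ℕ => pO z.2.1) := ls_pO h2
  have hb := ls_blkV K (x := fun z : ℕ × ℕ × ℕ => z.2.2 / 16) (by fun_prop) h1
  have hs := ls_selF (α := ℕ × ℕ × ℕ) (G := fun o z =>
    ifz (isSt o * eq01 z.1 (uS (bd P + 1) z.2.1 o % K)) (blkV K (z.2.2 / 16) z.1)
      (valL o (uS (bd P + 1) z.2.1 o) (vS D K (bd P + 1) z.2.1 z.2.2 o) + 1)) (fun o => by
      have hu := ls_uS (bd P + 1) o h2
      have hv := ls_vS D K (bd P + 1) o h2 h3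
      exact LS.ifz (LS.mul (LS.const _) (LS.eq01 h1 (by fun_prop))) hb
        (LS.add (ls_valL o hu hv) (LS.const 1))) P
      (pc := fun z => pO z.2.1 - 1) (by fun_prop)
  have e : (fun z : ℕ × ℕ × ℕ => wrG D K P z.1 z.2.1 z.2.2) = fun z => ifz (pO z.2.1)
      (blkV K (z.2.2 / 16) z.1)
      (selF (fun o (z : ℕ × ℕ × ℕ) => ifz (isSt o * eq01 z.1 (uS (bd P + 1) z.2.1 o % K))
        (blkV K (z.2.2 / 16) z.1)
        (valL o (uS (bd P + 1) z.2.1 o) (vS D K (bd P + 1) z.2.1 z.2.2 o) + 1)) P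
        (pO z.2.1 - 1) z) := by
    funext z
    unfold wrG
    rw [selF_eq, selF_eq]
  rw [e]
  exact LS.ifz hp hb hs

theorem ls_writeF (D : LD) (K : ℕ) (P : List Ins) : LS (writeF D K P) := by
  have h1 := ls_bvN ls_hd
  have ht : LS (fun x : ℕ => tl x) := ls_tl
  have h2 : LS (fun x : ℕ => hd (tl x)) := LS.comp (g := hd) ls_hd ht
  have h3 : LS (fun x : ℕ => tl (tl x)) := LS.comp (g := tl) ls_tl ht
  exact LS.comp (g := fun z : ℕ × ℕ × ℕ => wrG D K P z.1 z.2.1 z.2.2)
    (f := fun x => (bvN (hd x), hd (tl x), tl (tl x))) (ls_wrG D K P) (by fun_prop)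

/-- The machine which runs the program. -/
noncomputable def mach (D : LD) (K : ℕ) (P : List Ins) : Jumper K where
  start := wd (sto 0 0 0 0 0)
  addr := wf (addrF D P)
  pos := wf (posF K P)
  next := wf (nextF D K P)
  write := wf (writeF D K P)
  addr_lin := linComp_wf (ls_addrF D P)
  pos_lin := linComp_wf (ls_posF K P)
  next_lin := linComp_wf (ls_nextF D K P)
  write_lin := linComp_wf (ls_writeF D K P)

end Pool.Agent.Helper81.JR
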