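import Pool.Agent.Helper81.JR.Mach
import Pool.Agent.Helper92.RE.Sim

/-!
# Programs of random access machines as machines with tapes on which the heads can jump: the
computation
-/

set_option autoImplicit false

namespace Pool.Agent.Helper81.JR

open Pool.Agent.Helper65.LinSpace Pool.Agent.Helper78.Mpc Pool.Agent.Helper28.Ram
open Pool.Agent.Helper65.OH (letW)
open Pool.Agent.Helper65.BR (Jumper)
open Pool.Agent.Helper81.RP (Ins lett step AcceptsAt conf conf_succ wd wf num_wd wd_num wf_eq
  linComp_wf length_wd ls_pair hd tl ls_hd ls_tl hd_eq tl_eq a0 a1 dst npc uu ls_a1 ls_dst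
  ls_npc selF selF_eq ls_selF isA accF accF_le accF_eq_one ls_accF bd pair_lt wd_one head_wd a0_le
  cst cst_le)
open Pool.Agent.Helper92.RE

/-! ### The memory -/

/-- The memory of the machine. The registers with small numbers are changed only by `store`. -/
def mem (P : List Ins) (x y : List Bool) : ℕ → ℕ → ℕ
  | 0 => fun _ => 0
  | k + 1 => if isSt P[(conf P x y k).1]? = 0 then mem P x y k else
      Function.update (mem P x y k) (uu P (conf P x y k)) (vvL P x y (conf P x y k))

theorem isSt_ne {o : Option Ins} (h : isSt o ≠ 0) : ∃ i j, o = some (.store i j) := by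
  rcases o with _ | o
  · exact absurd rfl h
  · cases o <;> first | exact absurd rfl h | exact ⟨_, _, rfl⟩

theorem dst_le {P : List Ins} {pc : ℕ} (u : ℕ) (h : isSt P[pc]? = 0) : dst P[pc]? u ≤ bd P := by
  unfold bd
  rcases ho : P[pc]? with _ | o
  · exact Nat.zero_le _
  · have h1 := cst_le ho
    rw [ho] at h
    cases o <;> simp only [dst, cst, isSt] at h h1 ⊢ <;> omega

theorem a1_le' {P : List Ins} {pc u : ℕ} (h : bd P < a1 P[pc]? u) :
    ∃ i j, P[pc]? = some (.load i j) ∧ a1 P[pc]? u = u := by
  unfold bd at h
  rcases ho : P[pc]? with _ | o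
  · rw [ho] at h
    exact absurd h (Nat.not_lt_zero _)
  · have h1 := cst_le ho
    rw [ho] at h
    cases o <;> simp only [a1, cst] at h h1 ⊢ <;> first | omega | exact ⟨_, _, rfl, trivial⟩

theorem mem_eq (P : List Ins) (x y : List Bool) (k : ℕ) {j : ℕ} (hj : bd P < j) :
    mem P x y k j = (conf P x y k).2 j := by
  induction k with
  | zero => rfl
  | succ k ih =>
    rw [conf_succ, step_eqL]
    show (if isSt P[(conf P x y k).1]? = 0 then mem P x y k else
      Function.update (mem P x y k) (uu P (conf P x y k)) (vvL P x y (conf P x y k))) j =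
      Function.update (conf P x y k).2 (dst P[(conf P x y k).1]? (uu P (conf P x y k)))
        (valL P[(conf P x y k).1]? (uu P (conf P x y k)) (vvL P x y (conf P x y k))) j
    by_cases h : isSt P[(conf P x y k).1]? = 0
    · rw [if_pos h, ih, Function.update_of_ne]
      have := dst_le (uu P (conf P x y k)) h
      omega
    · rw [if_neg h]
      obtain ⟨a, b, hab⟩ := isSt_ne h
      have e1 : dst P[(conf P x y k).1]? (uu P (conf P x y k)) = uu P (conf P x y k) := by
        rw [hab]
        rfl
      have e2 : valL P[(conf P x y k).1]? (uu P (conf P x y k)) (vvL P x y (conf P x y k)) =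
          vvL P x y (conf P x y k) := by
        rw [hab]
        rfl
      rw [e1, e2]
      by_cases hju : j = uu P (conf P x y k)
      · rw [hju, Function.update_self, Function.update_self]
      · rw [Function.update_of_ne hju, Function.update_of_ne hju, ih]

theorem mem_lt {P : List Ins} {x y : List Bool} {t s : ℕ}
    (h : ∀ k ≤ t, ∀ i, (conf P x y k).2 i < 2 ^ s) {k : ℕ} (hk : k ≤ t) (j : ℕ) :
    mem P x y k j < 2 ^ s := by
  induction k with
  | zero => exact Nat.two_pow_pos _
  | succ k ih =>
    show (if isSt P[(conf P x y k).1]? = 0 then mem P x y k else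
      Function.update (mem P x y k) (uu P (conf P x y k)) (vvL P x y (conf P x y k))) j < 2 ^ s
    by_cases h0 : isSt P[(conf P x y k).1]? = 0
    · rw [if_pos h0]
      exact ih (by omega)
    · rw [if_neg h0]
      by_cases hju : j = uu P (conf P x y k)
      · have h1 := h (k + 1) hk (uu P (conf P x y k))
        obtain ⟨a, b, hab⟩ := isSt_ne h0
        rw [conf_succ, step_eqL] at h1
        rw [hju, Function.update_self]
        have e1 : dst P[(conf P x y k).1]? (uu P (conf P x y k)) = uu P (conf P x y k) := by
          rw [hab]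
          rfl
        have e2 : valL P[(conf P x y k).1]? (uu P (conf P x y k)) (vvL P x y (conf P x y k)) =
            vvL P x y (conf P x y k) := by
          rw [hab]
          rfl
        rw [e1, e2] at h1
        dsimp only at h1
        rwa [Function.update_self] at h1
      · rw [Function.update_of_ne hju]
        exact ih (by omega)

theorem acc_eq (P : List Ins) (c : ℕ × (ℕ → ℕ)) :
    acc P c = if isLS P[c.1]? = 0 then none else some (uu P c) := by
  unfold acc uu
  rcases P[c.1]? with _ | o
  · rfl
  · cases o <;> rfl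

theorem last_succ (P : List Ins) (x y : List Bool) (K i k : ℕ) :
    last P x y K i (k + 1) = if isLS P[(conf P x y k).1]? ≠ 0 ∧ uu P (conf P x y k) % K = i then
      uu P (conf P x y k) / K else last P x y K i k := by
  show (match acc P (conf P x y k) with
    | some z => if z % K = i then z / K else last P x y K i k
    | none => last P x y K i k) = _
  rw [acc_eq]
  by_cases h : isLS P[(conf P x y k).1]? = 0
  · rw [if_pos h, if_neg fun h1 => h1.1 h]
  · rw [if_neg h]
    show (if uu P (conf P x y k) % K = i then uu P (conf P x y k) / K else last P x y K i k) = _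
    by_cases h2 : uu P (conf P x y k) % K = i
    · rw [if_pos h2, if_pos ⟨h, h2⟩]
    · rw [if_neg h2, if_neg fun h1 => h2 h1.2]

/-! ### One step of the machine -/

section

variable (D : LD) (K : ℕ) (P : List Ins)

theorem pos_wd {S : ℕ} (hS : 0 < S) (i : Fin K) :
    (mach D K P).pos (sd (i : ℕ).bits ++ wd S) = (posG K P i S).bits := by
  have h : (mach D K P).pos (sd (i : ℕ).bits ++ wd S) = wd (bitsN (posG K P i S)) := by
    refine wf_eq ?_ (by rw [bitsN_eq]; exact num_pos _)
    unfold posF
    rw [hd_eq, tl_eq, ← bitsN_eq, bvN_bitsN, num_wd hS]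
  rw [h, bitsN_eq, wd_num]

theorem cell_wd {S : ℕ} (hS : 0 < S) (i : Fin K) :
    (mach D K P).cell (wd S) i = posG K P i S := by
  unfold Jumper.cell
  rw [pos_wd D K P hS, Pool.Agent.Helper31.TMS.bval_bits]

theorem addr_wd {S a : ℕ} (hS : 0 < S) (ha : addrF D P S = bitsN a) :
    (mach D K P).addr (wd S) = a.bits := by
  have h : (mach D K P).addr (wd S) = wd (bitsN a) := by
    refine wf_eq ?_ (by rw [bitsN_eq]; exact num_pos _)
    rw [num_wd hS, ha]
  rw [h, bitsN_eq, wd_num]

/-- The code of the part of the word which is read. -/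
def zz (w y : List Bool) (a S : ℕ) (m : Fin K → ℕ → List Bool) : ℕ :=
  num (letW w[a]? ++ (letW y[a]? ++ (List.finRange K).flatMap fun i => sd (m i (posG K P i S))))

theorem zz_w (w y : List Bool) (a S : ℕ) (m : Fin K → ℕ → List Bool) :
    l3 (zz K P w y a S m % 4) = lett w[a]? := l3_letW _ _

theorem zz_y (w y : List Bool) (a S : ℕ) (m : Fin K → ℕ → List Bool) :
    l3 (zz K P w y a S m / 4 % 4) = lett y[a]? := by
  unfold zz
  rw [div_letW, l3_letW]

theorem zz_blk (w y : List Bool) (a S : ℕ) (m : Fin K → ℕ → List Bool) (i : Fin K) :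
    blkV K (zz K P w y a S m / 16) i = num (m i (posG K P i S)) := by
  unfold zz
  rw [show (16 : ℕ) = 4 * 4 by norm_num, ← Nat.div_div_eq_div_mul, div_letW, div_letW]
  exact blkV_eq (fun i => m i (posG K P i S)) i

theorem step_mach {w y : List Bool} {S a S' : ℕ} (hS : 0 < S) (ha : addrF D P S = bitsN a)
    (m : Fin K → ℕ → List Bool) {W : ℕ → ℕ} (hS' : 0 < S') (hW : ∀ i : Fin K, 0 < W i)
    (h1 : ∀ x, hd x = S → tl x = zz K P w y a S m → nextF D K P x = S')
    (h2 : ∀ i : Fin K, wrG D K P i S (zz K P w y a S m) = W i) :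
    (mach D K P).step w y (wd S, m) =
      (wd S', fun i => Function.update (m i) (posG K P i S) (wd (W i))) := by
  have hinp : (mach D K P).inp w y (wd S) ((mach D K P).rd (wd S, m)) = sd (wd S) ++
      (letW w[a]? ++ (letW y[a]? ++
        (List.finRange K).flatMap fun i => sd (m i (posG K P i S)))) := by
    unfold Jumper.inp
    rw [addr_wd D K P hS ha, Pool.Agent.Helper31.TMS.bval_bits]
    congr 4
    funext i
    congr 1
    show m i ((mach D K P).cell (wd S) i) = _
    rw [cell_wd D K P hS]
  have hhd : hd (num ((mach D K P).inp w y (wd S) ((mach D K P).rd (wd S, m)))) = S := by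
    rw [hinp, hd_eq, num_wd hS]
  have htl : tl (num ((mach D K P).inp w y (wd S) ((mach D K P).rd (wd S, m)))) =
      zz K P w y a S m := by
    rw [hinp, tl_eq]
    rfl
  unfold Jumper.step
  refine Prod.ext ?_ ?_
  · exact wf_eq (h1 _ hhd htl) hS'
  · funext i
    show Function.update (m i) ((mach D K P).cell (wd S) i) ((mach D K P).write
      (sd (i : ℕ).bits ++ (mach D K P).inp w y (wd S) ((mach D K P).rd (wd S, m)))) = _
    rw [cell_wd D K P hS]
    congr 1
    refine wf_eq ?_ (hW i)
    unfold writeF
    rw [hd_eq, tl_eq, ← bitsN_eq, bvN_bitsN, hhd, htl]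
    exact h2 i

/-- The computation of the length. -/
theorem stepA (w y : List Bool) (n : ℕ) :
    (mach D K P).step w y (wd (sto 0 0 n 0 0), fun _ _ => []) =
      (if n < w.length then wd (sto 0 0 (n + 1) 0 0) else wd (sto (accF P 0) 1 n 0 0),
        fun _ _ => []) := by
  have h0 : (0 : ℕ) ≤ 1 := by omega
  have haddr : addrF D P (sto 0 0 n 0 0) = bitsN n := by
    unfold addrF
    rw [pO_sto h0, ifz_zero, nO_sto h0]
  have key := step_mach D K P (w := w) (y := y)
    (S' := if n < w.length then sto 0 0 (n + 1) 0 0 else sto (accF P 0) 1 n 0 0)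
    (W := fun _ => 1) (sto_pos _ _ _ _ _) haddr
    (fun _ _ => []) (by split_ifs <;> exact sto_pos _ _ _ _ _) (fun _ => Nat.one_pos) ?_ ?_
  · rw [key]
    refine Prod.ext ?_ ?_
    · by_cases hn : n < w.length
      · simp only [if_pos hn]
      · simp only [if_neg hn]
    · funext i z
      show Function.update (fun _ => []) (posG K P i (sto 0 0 n 0 0)) (wd 1) z = []
      by_cases hz : z = posG K P i (sto 0 0 n 0 0)
      · rw [hz, Function.update_self, wd_one]
      · rw [Function.update_of_ne hz]
  · intro x hx1 hx2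
    unfold nextF
    rw [hx1, hx2, pO_sto h0, ifz_zero, zz_w, nO_sto h0]
    by_cases hn : n < w.length
    · have h2 : lett w[n]? ≠ 0 := fun h => by
        rw [lett_none] at h
        omega
      rw [ifz_ne h2, if_pos hn]
    · rw [lett_none.2 (by omega), ifz_zero, if_neg hn]
  · intro i
    unfold wrG
    rw [pO_sto h0, ifz_zero, zz_blk]
    rfl

end

/-! ### The computation -/

/-- The code of the state of the machine. -/
def stN (K : ℕ) (P : List Ins) (x y : List Bool) (n k : ℕ) : ℕ :=
  sto (accF P (conf P x y k).1) ((conf P x y k).1 + 1) n (tup (bd P + 1) (conf P x y k).2)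
    (tup K fun i => last P x y K i k)

/-- The number of the letters which are read. -/
def adN (D : LD) (P : List Ins) (x y : List Bool) (n k : ℕ) : ℕ :=
  ifz (inpL P[(conf P x y k).1]?) 0 (ifz (inpL P[(conf P x y k).1]? - 1)
    (adr1 D n (uu P (conf P x y k))) (uu P (conf P x y k)))

section

variable (D : LD) (K : ℕ) (P : List Ins) (x y : List Bool) (n k : ℕ)

theorem pO_stN : pO (stN K P x y n k) = (conf P x y k).1 + 1 := pO_sto (accF_le _ _) _ _ _ _

theorem nO_stN : nO (stN K P x y n k) = n := nO_sto (accF_le _ _) _ _ _ _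

theorem uO_stN : uO (stN K P x y n k) = tup (bd P + 1) (conf P x y k).2 :=
  uO_sto (accF_le _ _) _ _ _ _

theorem vO_stN : vO (stN K P x y n k) = tup K fun i => last P x y K i k :=
  vO_sto (accF_le _ _) _ _ _ _

theorem uS_stN : uS (bd P + 1) (stN K P x y n k) P[(conf P x y k).1]? = uu P (conf P x y k) := by
  unfold uS
  rw [uO_stN, getV_tup (Nat.lt_succ_of_le (a0_le P _))]
  rfl

theorem addrF_stN : addrF D P (stN K P x y n k) = bitsN (adN D P x y n k) := by
  unfold addrF adN
  rw [pO_stN, ifz_ne (Nat.succ_ne_zero _), selF_eq, Nat.add_sub_cancel, uS_stN, nO_stN]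

/-- The positions of the heads are the cells which are accessed last after the step. -/
theorem posG_stN {i : ℕ} (hi : i < K) :
    posG K P i (stN K P x y n k) = last P x y K i (k + 1) := by
  unfold posG
  rw [pO_stN, ifz_ne (Nat.succ_ne_zero _), selF_eq, Nat.add_sub_cancel, uS_stN, vO_stN,
    getV_tup hi, last_succ]
  by_cases h : isLS P[(conf P x y k).1]? ≠ 0 ∧ uu P (conf P x y k) % K = i
  · have e : eq01 i (uu P (conf P x y k) % K) = 1 := by
      unfold eq01
      rw [if_pos h.2.symm]
    rw [if_pos h, e, mul_one, ifz_ne h.1]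
  · rw [if_neg h]
    have e : isLS P[(conf P x y k).1]? * eq01 i (uu P (conf P x y k) % K) = 0 := by
      by_cases h1 : isLS P[(conf P x y k).1]? = 0
      · rw [h1, zero_mul]
      · have h2 : i ≠ uu P (conf P x y k) % K := fun h2 => h ⟨h1, h2.symm⟩
        unfold eq01
        rw [if_neg h2, mul_zero]
    rw [e, ifz_zero]

end

theorem isLS_of_isSt {o : Option Ins} (h : isSt o ≠ 0) : isLS o ≠ 0 := by
  obtain ⟨i, j, rfl⟩ := isSt_ne h
  exact one_ne_zero

/-- The configurations of the machine. -/
theorem conf_machA (D : LD) (K : ℕ) (P : List Ins) (w y : List Bool) {t : ℕ}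
    (ht : t ≤ w.length) :
    (mach D K P).conf w y t = (wd (sto 0 0 t 0 0), fun _ _ => []) := by
  induction t with
  | zero => rfl
  | succ t ih =>
    show (mach D K P).step w y ((mach D K P).conf w y t) = _
    rw [ih (by omega), stepA, if_pos (by omega)]

theorem vS_stN {D : LD} {F : List Bool → List Bool} (hF : D.Is F) {K : ℕ} (hK : 0 < K)
    (P : List Ins) (w y : List Bool) (k : ℕ) :
    vS D K (bd P + 1) (stN K P (F w) y w.length k) (zz K P w y (adN D P (F w) y w.length k)
      (stN K P (F w) y w.length k) fun i z => wd (mem P (F w) y k (z * K + i) + 1))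
      P[(conf P (F w) y k).1]? = vvL P (F w) y (conf P (F w) y k) := by
  unfold vS vvL
  rw [uS_stN, nO_stN, uO_stN, zz_w, zz_y]
  by_cases h0 : inpL P[(conf P (F w) y k).1]? = 0
  · rw [h0, ifz_zero, ifz_zero]
    by_cases h1 : a1 P[(conf P (F w) y k).1]? (uu P (conf P (F w) y k)) < bd P + 1
    · have e : lt01 (a1 P[(conf P (F w) y k).1]? (uu P (conf P (F w) y k))) (bd P + 1) = 1 := by
        unfold lt01
        rw [if_pos h1]
      rw [e, ifz_ne one_ne_zero, getV_tup h1]
    · have e : lt01 (a1 P[(conf P (F w) y k).1]? (uu P (conf P (F w) y k))) (bd P + 1) = 0 := by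
        unfold lt01
        rw [if_neg h1]
      rw [e, ifz_zero]
      obtain ⟨a, b, hab, hu⟩ := a1_le' (Nat.lt_of_succ_le (Nat.le_of_not_lt h1))
      have hmod : uu P (conf P (F w) y k) % K < K := Nat.mod_lt _ hK
      have hb := zz_blk K P w y (adN D P (F w) y w.length k)
        (stN K P (F w) y w.length k) (fun i z => wd (mem P (F w) y k (z * K + i) + 1))
        ⟨uu P (conf P (F w) y k) % K, hmod⟩
      dsimp only at hb
      rw [hb, posG_stN K P (F w) y w.length k hmod, last_succ, if_pos ⟨by rw [hab]; exact one_ne_zero, rfl⟩,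
        num_wd (Nat.succ_pos _), Nat.succ_sub_one, Nat.div_add_mod', hu, mem_eq]
      rw [hu] at h1
      omega
  · rw [ifz_ne h0, ifz_ne h0]
    by_cases h1 : inpL P[(conf P (F w) y k).1]? - 1 = 0
    · have ha : adN D P (F w) y w.length k = adr1 D w.length (uu P (conf P (F w) y k)) := by
        unfold adN
        rw [ifz_ne h0, h1, ifz_zero]
      rw [h1, ifz_zero, ifz_zero, ha, lt_eq hF]
    · have ha : adN D P (F w) y w.length k = uu P (conf P (F w) y k) := by
        unfold adN
        rw [ifz_ne h0, ifz_ne h1]
      rw [ifz_ne h1, ifz_ne h1, ha]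

theorem conf_mach {D : LD} {F : List Bool → List Bool} (hF : D.Is F) {K : ℕ} (hK : 0 < K)
    (P : List Ins) (w y : List Bool) (k : ℕ) :
    (mach D K P).conf w y (w.length + 1 + k) = (wd (stN K P (F w) y w.length k),
      fun (i : Fin K) z => wd (mem P (F w) y k (z * K + i) + 1)) := by
  induction k with
  | zero =>
    rw [add_zero]
    show (mach D K P).step w y ((mach D K P).conf w y w.length) = _
    rw [conf_machA D K P w y le_rfl, stepA, if_neg (lt_irrefl _)]
    refine Prod.ext ?_ ?_
    · show wd (sto (accF P 0) 1 w.length 0 0) = wd (sto (accF P 0) (0 + 1) w.length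
        (tup (bd P + 1) fun _ => 0) (tup K fun _ => 0))
      rw [tup_zero, tup_zero]
    · funext i z
      show [] = wd (0 + 1)
      rw [zero_add, wd_one]
  | succ k ih =>
    rw [← add_assoc]
    show (mach D K P).step w y ((mach D K P).conf w y (w.length + 1 + k)) = _
    rw [ih]
    have hv := vS_stN hF hK P w y k
    set c := conf P (F w) y k with hc
    set S := stN K P (F w) y w.length k with hSdef
    set a := adN D P (F w) y w.length k with hadef
    set m : Fin K → ℕ → List Bool := fun i z => wd (mem P (F w) y k (z * K + i) + 1) with hm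
    have hconf : conf P (F w) y (k + 1) = (npc P[c.1]? c.1 (uu P c),
        Function.update c.2 (dst P[c.1]? (uu P c)) (valL P[c.1]? (uu P c) (vvL P (F w) y c))) := by
      rw [conf_succ, step_eqL]
    have hu : uS (bd P + 1) S P[c.1]? = uu P c := uS_stN K P (F w) y w.length k
    have hmem : ∀ (i : Fin K), isSt P[c.1]? ≠ 0 ∧ uu P c % K = i →
        posG K P i S * K + i = uu P c := by
      rintro i ⟨h1, h2⟩
      have h3 := posG_stN K P (F w) y w.length k i.2
      rw [last_succ, if_pos ⟨isLS_of_isSt h1, h2⟩] at h3
      rw [hSdef, h3, ← h2]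
      exact Nat.div_add_mod' _ _
    have key := step_mach D K P (w := w) (y := y) (S := S) (a := a)
      (S' := stN K P (F w) y w.length (k + 1))
      (W := fun i => if isSt P[c.1]? ≠ 0 ∧ uu P c % K = i then vvL P (F w) y c + 1
        else mem P (F w) y k (posG K P i S * K + i) + 1)
      (sto_pos _ _ _ _ _) (addrF_stN D K P (F w) y w.length k) m
      (sto_pos _ _ _ _ _) (fun i => by split_ifs <;> exact Nat.succ_pos _) ?_ ?_
    · rw [key]
      refine Prod.ext rfl ?_
      funext i z
      have e0 : mem P (F w) y (k + 1) (z * K + i) = if isSt P[c.1]? = 0 then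
          mem P (F w) y k (z * K + i) else
          Function.update (mem P (F w) y k) (uu P c) (vvL P (F w) y c) (z * K + i) := by
        show (if isSt P[c.1]? = 0 then mem P (F w) y k else
          Function.update (mem P (F w) y k) (uu P c) (vvL P (F w) y c)) (z * K + i) = _
        split_ifs <;> rfl
      dsimp only
      rw [e0]
      by_cases hz : z = posG K P i S
      · rw [hz, Function.update_self]
        by_cases h : isSt P[c.1]? ≠ 0 ∧ uu P c % K = i
        · rw [if_pos h, if_neg h.1, hmem i h, Function.update_self]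
        · rw [if_neg h]
          by_cases h1 : isSt P[c.1]? = 0
          · rw [if_pos h1]
          · rw [if_neg h1, Function.update_of_ne]
            intro h2
            refine h ⟨h1, ?_⟩
            rw [← h2, Nat.add_comm, Nat.add_mul_mod_self_right, Nat.mod_eq_of_lt i.2]
      · rw [Function.update_of_ne hz]
        show wd (mem P (F w) y k (z * K + i) + 1) = _
        by_cases h1 : isSt P[c.1]? = 0
        · rw [if_pos h1]
        · rw [if_neg h1, Function.update_of_ne]
          intro h2
          have h3 : uu P c % K = i := by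
            rw [← h2, Nat.add_comm, Nat.add_mul_mod_self_right, Nat.mod_eq_of_lt i.2]
          have h4 := hmem i ⟨h1, h3⟩
          rw [← h2] at h4
          exact hz (Nat.eq_of_mul_eq_mul_right hK (Nat.add_right_cancel h4)).symm
    · intro x' hx1 hx2
      unfold nextF
      rw [hx1, hx2, pO_stN, ifz_ne (Nat.succ_ne_zero _), selF_eq, Nat.add_sub_cancel]
      unfold nxS
      rw [hx1, hx2, pO_stN, Nat.add_sub_cancel, nO_stN, uO_stN, vO_stN]
      rw [← hc, hu, hv]
      unfold stN
      rw [hconf]
      dsimp only
      rw [setV_tup]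
      congr 1
      by_cases h : isLS P[c.1]? = 0
      · rw [h, ifz_zero]
        refine tup_congr fun i _ => ?_
        rw [last_succ, if_neg fun h1 => h1.1 h]
      · rw [ifz_ne h, setV_tup]
        refine tup_congr fun i _ => ?_
        rw [last_succ, ← hc]
        by_cases h2 : uu P c % K = i
        · rw [if_pos ⟨h, h2⟩, h2, Function.update_self]
        · rw [if_neg fun h1 => h2 h1.2, Function.update_of_ne fun h1 => h2 h1.symm]
    · intro i
      unfold wrG
      rw [pO_stN, ifz_ne (Nat.succ_ne_zero _), selF_eq, Nat.add_sub_cancel, ← hc, hu,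
        hv, zz_blk]
      have hn : num (m i (posG K P i S)) = mem P (F w) y k (posG K P i S * K + i) + 1 := by
        rw [hm]
        exact num_wd (Nat.succ_pos _)
      rw [hn]
      by_cases h : isSt P[c.1]? ≠ 0 ∧ uu P c % K = i
      · have e : eq01 (i : ℕ) (uu P c % K) = 1 := by
          unfold eq01
          rw [if_pos h.2.symm]
        rw [if_pos h, e, mul_one, ifz_ne h.1]
        obtain ⟨a', b', hab⟩ := isSt_ne h.1
        rw [hab]
        rfl
      · rw [if_neg h]
        have e : isSt P[c.1]? * eq01 (i : ℕ) (uu P c % K) = 0 := by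
          by_cases h1 : isSt P[c.1]? = 0
          · rw [h1, zero_mul]
          · have h2 : (i : ℕ) ≠ uu P c % K := fun h2 => h ⟨h1, h2.symm⟩
            unfold eq01
            rw [if_neg h2, mul_zero]
        rw [e, ifz_zero]

/-- Acceptance. -/
theorem accepts_iff {D : LD} {F : List Bool → List Bool} (hF : D.Is F) {K : ℕ} (hK : 0 < K)
    (P : List Ins) (w y : List Bool) (r : ℕ) :
    (mach D K P).AcceptsAt w y r ↔ ∃ t, r = w.length + 1 + t ∧ AcceptsAt P (F w) y t := by
  unfold Jumper.AcceptsAt AcceptsAt
  constructor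
  · intro h
    rcases le_or_gt r w.length with hr | hr
    · rw [conf_machA D K P w y hr, head_st (by omega)] at h
      omega
    obtain ⟨t, rfl⟩ : ∃ t, r = w.length + 1 + t := ⟨r - w.length - 1, by omega⟩
    refine ⟨t, rfl, ?_⟩
    rw [conf_mach hF hK] at h
    unfold stN at h
    rw [head_st (accF_le _ _), accF_eq_one] at h
    exact h
  · rintro ⟨t, rfl, h⟩
    rw [conf_mach hF hK]
    unfold stN
    rw [head_st (accF_le _ _), accF_eq_one]
    exact h

end Pool.Agent.Helper81.JR
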